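import Pool.Agent.Helper43.GK.VINb

set_option autoImplicit false

namespace Pool.Agent.Helper43.GK

open Finset
open Pool.Agent.Helper23.GK
open Pool.Agent.Helper48.BK (ex)

private lemma sum_card_bd (f : ℕ → ℂ) (hf : ∀ n, ‖f n‖ ≤ 1) (N N' : ℕ) (h2 : N' ≤ 2 * N) :
    ‖∑ n ∈ Ioc N N', f n‖ ≤ N := by
  calc ‖∑ n ∈ Ioc N N', f n‖ ≤ ∑ n ∈ Ioc N N', ‖f n‖ := norm_sum_le _ _
    _ ≤ ∑ n ∈ Ioc N N', (1 : ℝ) := Finset.sum_le_sum fun n _ => hf n
    _ = ((N' - N : ℕ) : ℝ) := by simp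
    _ ≤ N := by exact_mod_cast (by omega)

/-- case `s ≤ N^{lam/5}` -/
private lemma caseB (hHol : StHol) (hWsu : StWsu) (hTay : StTay) (C0 : ℝ) (hC0 : 0 < C0)
    (hV : ∀ k X : ℕ, 2 ≤ k → 1 ≤ X → (JJ k (6 * k ^ 2) X : ℝ) ≤ Real.exp (C0 * (k : ℝ) ^ 4) *
      (X : ℝ) ^ (12 * (k : ℝ) ^ 2 - (k : ℝ) * (k + 1) / 2 + (k : ℝ) ^ 2 / 500))
    (N N' k : ℕ) (L lam t θ : ℝ) (hN2 : 2 ≤ N) (hNN : N ≤ N') (hN' : N' ≤ 2 * N)
    (hθ0 : 0 ≤ θ) (hθ1 : θ ≤ 1) (hL : 0 ≤ L) (hNL : (N : ℝ) = Real.exp L)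
    (hk : 2 ≤ k) (hk1 : 5 * lam + 1 ≤ k) (hk2 : (k : ℝ) ≤ 5 * lam + 2)
    (hlam : 1 / 2 ≤ lam)
    (ht : |t| = Real.exp (lam * L)) (hs : 6 * (k : ℝ) ^ 2 ≤ Real.exp (lam * L / 5)) :
    ‖∑ n ∈ Ioc N N', cs t θ n‖ ≤
      (Real.exp (C0 + 1) * (1 + L) + 3) * Real.exp (L - 1 / 5000000 / (1 + lam) ^ 2 * L) := by
  set M := ⌊Real.exp (2 / 5 * L)⌋₊ with hMd
  have hE1 : 1 ≤ Real.exp (2 / 5 * L) := Real.one_le_exp (by positivity)
  have hM : 1 ≤ M := Nat.le_floor (by exact_mod_cast hE1)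
  have hMR : (1 : ℝ) ≤ M := by exact_mod_cast hM
  have hM1 : (M : ℝ) ≤ Real.exp (2 / 5 * L) := Nat.floor_le (by positivity)
  have hM2 : Real.exp (2 / 5 * L) ≤ 2 * M := by
    have := (Nat.lt_floor_add_one (Real.exp (2 / 5 * L))).le
    rw [← hMd] at this
    linarith
  set D := Real.exp (C0 + 1) * (1 + L) * Real.exp (-(1 / 5000000 / (1 + lam) ^ 2 * L)) with hD
  set B := Real.exp (-(2 / 5 * L)) with hB
  have hMM : (M : ℝ) ^ 2 ≤ Real.exp (4 / 5 * L) := by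
    calc (M : ℝ) ^ 2 ≤ (Real.exp (2 / 5 * L)) ^ 2 := by gcongr
      _ = Real.exp (4 / 5 * L) := by rw [← Real.exp_nat_mul]; congr 1; push_cast; ring
  have hNR : (2 : ℝ) ≤ N := by exact_mod_cast hN2
  have hterm : ∀ n ∈ Ioc N N', ‖∑ x ∈ Icc 1 M, ∑ y ∈ Icc 1 M, cs t θ (n + x * y)‖ ≤
      (M : ℝ) ^ 2 * (D + B) := by
    intro n hn
    rw [Finset.mem_Ioc] at hn
    have hn1 : (N : ℝ) ≤ n := by exact_mod_cast hn.1.le
    have hn2 : (n : ℝ) ≤ 2 * N := by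
      have : n ≤ 2 * N := by omega
      exact_mod_cast this
    have hX1 : Real.exp L ≤ (n : ℝ) + θ := by rw [← hNL]; linarith
    have hX2 : (n : ℝ) + θ ≤ 3 * Real.exp L := by rw [← hNL]; linarith
    have hXp : 0 < (n : ℝ) + θ := lt_of_lt_of_le (Real.exp_pos _) hX1
    have hz : (M : ℝ) ^ 2 ≤ n + θ := by
      refine hMM.trans (le_trans ?_ hX1)
      apply Real.exp_le_exp.mpr
      linarith
    have hBB : |t| * ((M : ℝ) ^ 2 / (n + θ)) ^ (k + 1) ≤ B := by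
      have e1 : (M : ℝ) ^ 2 / (n + θ) ≤ Real.exp (-(L / 5)) := by
        rw [div_le_iff₀ hXp]
        calc (M : ℝ) ^ 2 ≤ Real.exp (4 / 5 * L) := hMM
          _ = Real.exp (-(L / 5)) * Real.exp L := by rw [← Real.exp_add]; congr 1; ring
          _ ≤ Real.exp (-(L / 5)) * (n + θ) := by gcongr
      calc |t| * ((M : ℝ) ^ 2 / (n + θ)) ^ (k + 1) ≤
            Real.exp (lam * L) * (Real.exp (-(L / 5))) ^ (k + 1) := by
            rw [ht]; gcongr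
        _ = Real.exp (lam * L + ((k + 1 : ℕ) : ℝ) * (-(L / 5))) := by
            rw [Real.exp_add, Real.exp_nat_mul]
        _ ≤ B := by
            apply Real.exp_le_exp.mpr
            push_cast
            nlinarith
    have h1 := vin_inner hTay k M t θ B n hXp hz hBB
    have h2 := vin_core hHol hWsu C0 hC0 hV k M L lam ((n : ℝ) + θ) t hk (by linarith)
      (by linarith) (by linarith) hM hL hlam ht hs hM1 hM2 hX1 hX2
    calc _ ≤ _ := h1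
      _ ≤ (M : ℝ) ^ 2 * D + (M : ℝ) ^ 2 * B := by
          rw [hD]
          linarith
      _ = (M : ℝ) ^ 2 * (D + B) := by ring
  have h3 := vin_avg (cs t θ) (cs_norm t θ) N N' M hNN
  have hDB : 0 ≤ D + B := by positivity
  have h4 : ∑ n ∈ Ioc N N', ‖∑ x ∈ Icc 1 M, ∑ y ∈ Icc 1 M, cs t θ (n + x * y)‖ ≤
      N * ((M : ℝ) ^ 2 * (D + B)) := by
    calc _ ≤ ∑ n ∈ Ioc N N', ((M : ℝ) ^ 2 * (D + B)) := Finset.sum_le_sum hterm
      _ = ((N' - N : ℕ) : ℝ) * ((M : ℝ) ^ 2 * (D + B)) := by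
          rw [Finset.sum_const, Nat.card_Ioc, nsmul_eq_mul]
      _ ≤ N * ((M : ℝ) ^ 2 * (D + B)) := by
          have : ((N' - N : ℕ) : ℝ) ≤ N := by exact_mod_cast (by omega)
          gcongr
  have hM2pos : 0 < (M : ℝ) ^ 2 := by positivity
  have h5 : ‖∑ n ∈ Ioc N N', cs t θ n‖ ≤ N * (D + B) + 2 * (M : ℝ) ^ 2 := by
    have : (M : ℝ) ^ 2 * ‖∑ n ∈ Ioc N N', cs t θ n‖ ≤
        (M : ℝ) ^ 2 * (N * (D + B) + 2 * (M : ℝ) ^ 2) := by
      calc _ ≤ _ := h3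
        _ ≤ N * ((M : ℝ) ^ 2 * (D + B)) + (M : ℝ) ^ 2 * (2 * (M : ℝ) ^ 2) := by linarith
        _ = _ := by ring
    exact le_of_mul_le_mul_left this hM2pos
  refine h5.trans ?_
  set R := Real.exp (L - 1 / 5000000 / (1 + lam) ^ 2 * L) with hR
  have hc1 : 1 / 5000000 / (1 + lam) ^ 2 ≤ (1 / 5 : ℝ) := by
    rw [div_le_iff₀ (by positivity)]
    nlinarith
  have hc2 : 1 / 5000000 / (1 + lam) ^ 2 * L ≤ 1 / 5 * L := by gcongr
  have g1 : (N : ℝ) * D = Real.exp (C0 + 1) * (1 + L) * R := by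
    rw [hD, hR, hNL, show L - 1 / 5000000 / (1 + lam) ^ 2 * L =
      L + -(1 / 5000000 / (1 + lam) ^ 2 * L) by ring, Real.exp_add L]
    ring
  have g2 : (N : ℝ) * B ≤ R := by
    rw [hB, hNL, ← Real.exp_add, hR]
    apply Real.exp_le_exp.mpr
    linarith
  have g3 : (M : ℝ) ^ 2 ≤ R := by
    refine hMM.trans ?_
    rw [hR]
    apply Real.exp_le_exp.mpr
    linarith
  calc (N : ℝ) * (D + B) + 2 * (M : ℝ) ^ 2 = N * D + N * B + 2 * (M : ℝ) ^ 2 := by ring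
    _ ≤ Real.exp (C0 + 1) * (1 + L) * R + R + 2 * R := by rw [g1]; linarith
    _ = _ := by ring

/-- VIN -/
theorem hVIN (hHol : StHol) (hVmv : StVmv) (hWsu : StWsu) (hTay : StTay) : StVin := by
  obtain ⟨C0, hC0, hV⟩ := hVmv
  refine ⟨Real.exp 80 + 2 * Real.exp (C0 + 1) + 3, 1 / 5000000, by positivity, by norm_num,
    by norm_num, ?_⟩
  intro N N' t θ hN2 hNN hN' hθ0 hθ1 htN
  have hNR : (2 : ℝ) ≤ N := by exact_mod_cast hN2
  have hNp : (0 : ℝ) < N := by linarith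
  set L := Real.log N with hLd
  have hLp : 0 < L := Real.log_pos (by linarith)
  have hNL : (N : ℝ) = Real.exp L := (Real.exp_log hNp).symm
  have htp : 0 < |t| := lt_of_lt_of_le (by positivity) htN
  set lam := Real.log |t| / L with hlamd
  have hlL : lam * L = Real.log |t| := div_mul_cancel₀ _ hLp.ne'
  have ht : |t| = Real.exp (lam * L) := by rw [hlL, Real.exp_log htp]
  have hlam : 1 / 2 ≤ lam := by
    rw [hlamd, le_div_iff₀ hLp, hLd]
    have := Real.log_le_log (by positivity) htN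
    rwa [Real.log_rpow hNp] at this
  have hlog1 : 1 ≤ Real.log ((N : ℝ) + 1) := by
    rw [Real.le_log_iff_exp_le (by linarith)]
    have := Real.exp_one_lt_d9
    linarith
  have hlogL : L ≤ Real.log ((N : ℝ) + 1) := Real.log_le_log hNp (by linarith)
  have hpow : (N : ℝ) ^ (1 - 1 / 5000000 / (1 + lam) ^ 2) =
      Real.exp (L - 1 / 5000000 / (1 + lam) ^ 2 * L) := by
    rw [Real.rpow_def_of_pos hNp]
    congr 1
    rw [hLd]; ring
  rw [hpow]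
  set R := Real.exp (L - 1 / 5000000 / (1 + lam) ^ 2 * L) with hR
  have hRp : 0 < R := Real.exp_pos _
  set k := ⌈5 * lam⌉₊ + 1 with hkd
  have hc1 : 5 * lam ≤ (⌈5 * lam⌉₊ : ℝ) := Nat.le_ceil _
  have hc2 : (⌈5 * lam⌉₊ : ℝ) < 5 * lam + 1 := Nat.ceil_lt_add_one (by linarith)
  have hkR : (k : ℝ) = (⌈5 * lam⌉₊ : ℝ) + 1 := by rw [hkd]; push_cast; ring
  have hk1 : 5 * lam + 1 ≤ k := by rw [hkR]; linarith
  have hk2 : (k : ℝ) ≤ 5 * lam + 2 := by rw [hkR]; linarith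
  have hk : 2 ≤ k := by
    have : (2 : ℝ) ≤ k := by linarith
    exact_mod_cast this
  by_cases hs : 6 * (k : ℝ) ^ 2 ≤ Real.exp (lam * L / 5)
  · refine (caseB hHol hWsu hTay C0 hC0 hV N N' k L lam t θ hN2 hNN hN' hθ0 hθ1 hLp.le hNL hk
      hk1 hk2 hlam ht hs).trans ?_
    apply mul_le_mul_of_nonneg_right _ hRp.le
    have hE : 0 < Real.exp (C0 + 1) := Real.exp_pos _
    have hE80 : 0 < Real.exp 80 := Real.exp_pos _
    nlinarith
  · push Not at hs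
    have hk9 : (k : ℝ) ≤ 9 * lam := by linarith
    have hk0 : (0 : ℝ) ≤ k := Nat.cast_nonneg _
    have e1 : 6 * (k : ℝ) ^ 2 ≤ 486 * lam ^ 2 := by
      calc 6 * (k : ℝ) ^ 2 ≤ 6 * (9 * lam) ^ 2 := by gcongr
        _ = 486 * lam ^ 2 := by ring
    have e2 : 486 * lam ^ 2 ≤ Real.exp (7 + 2 * lam) := by
      have h7 : (486 : ℝ) ≤ Real.exp 7 := by
        have := Real.exp_one_gt_d9
        calc (486 : ℝ) ≤ 2.7 ^ 7 := by norm_num
          _ ≤ (Real.exp 1) ^ 7 := by gcongr; linarith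
          _ = Real.exp 7 := by rw [← Real.exp_nat_mul]; norm_num
      have hl : lam ≤ Real.exp lam := by linarith [Real.add_one_le_exp lam]
      calc 486 * lam ^ 2 ≤ Real.exp 7 * (Real.exp lam) ^ 2 := by gcongr
        _ = Real.exp (7 + 2 * lam) := by
            rw [Real.exp_add, ← Real.exp_nat_mul]; norm_num
    have e3 : lam * L / 5 < 7 + 2 * lam := Real.exp_lt_exp.mp (by linarith)
    have e4 : L ≤ 80 := by nlinarith
    have hc : 1 / 5000000 / (1 + lam) ^ 2 ≤ (1 : ℝ) := by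
      rw [div_le_iff₀ (by positivity)]
      nlinarith
    have e5 : (N : ℝ) ≤ Real.exp 80 * R := by
      rw [hNL, hR, ← Real.exp_add]
      apply Real.exp_le_exp.mpr
      have : 1 / 5000000 / (1 + lam) ^ 2 * L ≤ 1 * L := by gcongr
      linarith
    refine (sum_card_bd (cs t θ) (cs_norm t θ) N N' hN').trans (e5.trans ?_)
    apply mul_le_mul_of_nonneg_right _ hRp.le
    have hE : 0 < Real.exp (C0 + 1) := Real.exp_pos _
    have hE80 : 0 < Real.exp 80 := Real.exp_pos _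
    nlinarith

end Pool.Agent.Helper43.GK
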