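import Pool.Agent.Helper23.GK.StB

/-!
# Project GK, module VIN: Vinogradov's estimate for sums of `(n+θ)^{-it}`
-/

set_option autoImplicit false

namespace Pool.Agent.Helper43.GK

open Finset
open Pool.Agent.Helper23.GK
open Pool.Agent.Helper48.BK (ex)

/-! ### shifting -/

lemma vin_shift (f : ℕ → ℂ) (hf : ∀ n, ‖f n‖ ≤ 1) (N N' h : ℕ) (hN : N ≤ N') :
    ‖∑ n ∈ Ioc N N', f n - ∑ n ∈ Ioc N N', f (n + h)‖ ≤ 2 * h := by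
  have e1 : ∑ n ∈ Ioc N N', f (n + h) = ∑ n ∈ Ioc (N + h) (N' + h), f n := by
    rw [← Finset.sum_image (g := fun n => n + h) (f := f)
      (by intro a _ b _ hab; simpa using hab)]
    congr 1
    ext m
    simp only [Finset.mem_image, Finset.mem_Ioc]
    constructor
    · rintro ⟨a, ha, rfl⟩; omega
    · intro hm; exact ⟨m - h, by omega, by omega⟩
  have e2 : ∑ n ∈ Ioc N N', f n + ∑ n ∈ Ioc N' (N' + h), f n =
      ∑ n ∈ Ioc N (N' + h), f n :=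
    Finset.sum_Ioc_consecutive f hN (by omega)
  have e3 : ∑ n ∈ Ioc N (N + h), f n + ∑ n ∈ Ioc (N + h) (N' + h), f n =
      ∑ n ∈ Ioc N (N' + h), f n :=
    Finset.sum_Ioc_consecutive f (by omega) (by omega)
  have e4 : ∑ n ∈ Ioc N N', f n - ∑ n ∈ Ioc N N', f (n + h) =
      ∑ n ∈ Ioc N (N + h), f n - ∑ n ∈ Ioc N' (N' + h), f n := by
    rw [e1]
    linear_combination e2 - e3
  rw [e4]
  have b1 : ∀ a : ℕ, ‖∑ n ∈ Ioc a (a + h), f n‖ ≤ h := by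
    intro a
    calc ‖∑ n ∈ Ioc a (a + h), f n‖ ≤ ∑ n ∈ Ioc a (a + h), ‖f n‖ := norm_sum_le _ _
      _ ≤ ∑ n ∈ Ioc a (a + h), (1 : ℝ) := Finset.sum_le_sum fun n _ => hf n
      _ = h := by simp
  calc _ ≤ ‖∑ n ∈ Ioc N (N + h), f n‖ + ‖∑ n ∈ Ioc N' (N' + h), f n‖ := norm_sub_le _ _
    _ ≤ h + h := add_le_add (b1 N) (b1 N')
    _ = 2 * h := by ring

lemma vin_avg (f : ℕ → ℂ) (hf : ∀ n, ‖f n‖ ≤ 1) (N N' M : ℕ) (hN : N ≤ N') :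
    (M : ℝ) ^ 2 * ‖∑ n ∈ Ioc N N', f n‖ ≤
      ∑ n ∈ Ioc N N', ‖∑ x ∈ Icc 1 M, ∑ y ∈ Icc 1 M, f (n + x * y)‖ +
        (M : ℝ) ^ 2 * (2 * (M : ℝ) ^ 2) := by
  set S := ∑ n ∈ Ioc N N', f n with hS
  have e1 : ((M : ℂ) ^ 2) * S = ∑ x ∈ Icc 1 M, ∑ y ∈ Icc 1 M, S := by
    simp [pow_two, mul_assoc]
  have e2 : ∑ n ∈ Ioc N N', ∑ x ∈ Icc 1 M, ∑ y ∈ Icc 1 M, f (n + x * y) =
      ∑ x ∈ Icc 1 M, ∑ y ∈ Icc 1 M, ∑ n ∈ Ioc N N', f (n + x * y) := by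
    rw [Finset.sum_comm]
    refine Finset.sum_congr rfl fun x _ => ?_
    rw [Finset.sum_comm]
  have e3 : ‖((M : ℂ) ^ 2) * S - ∑ n ∈ Ioc N N', ∑ x ∈ Icc 1 M, ∑ y ∈ Icc 1 M, f (n + x * y)‖
      ≤ (M : ℝ) ^ 2 * (2 * (M : ℝ) ^ 2) := by
    rw [e1, e2, ← Finset.sum_sub_distrib]
    calc _ ≤ ∑ x ∈ Icc 1 M, ‖∑ y ∈ Icc 1 M, S - ∑ y ∈ Icc 1 M, ∑ n ∈ Ioc N N', f (n + x * y)‖ :=
          norm_sum_le _ _
      _ ≤ ∑ x ∈ Icc 1 M, ∑ y ∈ Icc 1 M, (2 * (M : ℝ) ^ 2) := by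
          refine Finset.sum_le_sum fun x hx => ?_
          rw [← Finset.sum_sub_distrib]
          refine (norm_sum_le _ _).trans (Finset.sum_le_sum fun y hy => ?_)
          have h1 := vin_shift f hf N N' (x * y) hN
          refine h1.trans ?_
          have hx2 : (x : ℝ) ≤ M := by exact_mod_cast (Finset.mem_Icc.mp hx).2
          have hy2 : (y : ℝ) ≤ M := by exact_mod_cast (Finset.mem_Icc.mp hy).2
          have hx0 : (0 : ℝ) ≤ x := Nat.cast_nonneg _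
          have hy0 : (0 : ℝ) ≤ y := Nat.cast_nonneg _
          have hM0 : (0 : ℝ) ≤ M := Nat.cast_nonneg _
          push_cast
          nlinarith [mul_le_mul hx2 hy2 hy0 hM0]
      _ = (M : ℝ) ^ 2 * (2 * (M : ℝ) ^ 2) := by simp; ring
  have e4 : ‖((M : ℂ) ^ 2) * S‖ = (M : ℝ) ^ 2 * ‖S‖ := by
    rw [norm_mul, norm_pow, Complex.norm_natCast]
  have e5 := norm_le_norm_add_norm_sub' (((M : ℂ) ^ 2) * S)
    (∑ n ∈ Ioc N N', ∑ x ∈ Icc 1 M, ∑ y ∈ Icc 1 M, f (n + x * y))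
  have e6 := norm_sum_le (Ioc N N') (fun n => ∑ x ∈ Icc 1 M, ∑ y ∈ Icc 1 M, f (n + x * y))
  rw [e4] at e5
  linarith

lemma cs_norm (t θ : ℝ) (n : ℕ) : ‖cs t θ n‖ ≤ 1 := by
  rw [cs, Complex.norm_exp_ofReal_mul_I]

/-! ### Taylor step -/

/-- the coefficients -/
noncomputable def aj (t X : ℝ) (j : ℕ) : ℝ := (-1 : ℝ) ^ j * t / (2 * Real.pi * j * X ^ j)

private lemma vin_term (hTay : StTay) (k : ℕ) (t θ : ℝ) (n x y : ℕ) (hX : 0 < (n : ℝ) + θ)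
    (hz : (x : ℝ) * y ≤ n + θ) :
    ‖cs t θ (n + x * y) - Complex.exp (((-(t * Real.log ((n : ℝ) + θ)) : ℝ) : ℂ) * Complex.I) *
      ex (∑ j ∈ Icc 1 k, aj t ((n : ℝ) + θ) j * ((x : ℝ) ^ j * (y : ℝ) ^ j))‖ ≤
      |t| * ((x : ℝ) * y / (n + θ)) ^ (k + 1) := by
  set X := (n : ℝ) + θ with hXd
  set z := (x : ℝ) * y / X with hzd
  have hz0 : 0 ≤ z := by positivity
  have hz1 : z ≤ 1 := by rw [hzd, div_le_one hX]; exact hz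
  have h1 : cs t θ (n + x * y) =
      Complex.exp (((-(t * Real.log X) : ℝ) : ℂ) * Complex.I) *
        Complex.exp (((-(t * Real.log (1 + z)) : ℝ) : ℂ) * Complex.I) := by
    rw [cs, ← Complex.exp_add]
    congr 1
    have : ((n + x * y : ℕ) : ℝ) + θ = X * (1 + z) := by
      rw [hzd]; field_simp; push_cast; rw [hXd]; ring
    rw [this, Real.log_mul hX.ne' (by positivity)]
    push_cast
    ring
  have h2 : ex (∑ j ∈ Icc 1 k, aj t X j * ((x : ℝ) ^ j * (y : ℝ) ^ j)) =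
      Complex.exp (((∑ j ∈ Icc 1 k, (-1 : ℝ) ^ j * t * z ^ j / j : ℝ) : ℂ) * Complex.I) := by
    rw [ex]
    congr 1
    have : (∑ j ∈ Icc 1 k, (-1 : ℝ) ^ j * t * z ^ j / j : ℝ) =
        2 * Real.pi * ∑ j ∈ Icc 1 k, aj t X j * ((x : ℝ) ^ j * (y : ℝ) ^ j) := by
      rw [Finset.mul_sum]
      refine Finset.sum_congr rfl fun j hj => ?_
      have hj0 : (j : ℝ) ≠ 0 := by
        have := (Finset.mem_Icc.mp hj).1
        positivity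
      have hp := Real.pi_pos.ne'
      rw [aj, hzd, div_pow, mul_pow]
      field_simp
    rw [this]
    push_cast
    ring
  rw [h1, h2, ← mul_sub, norm_mul, Complex.norm_exp_ofReal_mul_I, one_mul]
  exact hTay k t z hz0 hz1

lemma vin_inner (hTay : StTay) (k M : ℕ) (t θ B : ℝ) (n : ℕ) (hX : 0 < (n : ℝ) + θ)
    (hz : (M : ℝ) ^ 2 ≤ n + θ) (hB : |t| * ((M : ℝ) ^ 2 / (n + θ)) ^ (k + 1) ≤ B) :
    ‖∑ x ∈ Icc 1 M, ∑ y ∈ Icc 1 M, cs t θ (n + x * y)‖ ≤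
      ‖∑ x ∈ Icc 1 M, ∑ y ∈ Icc 1 M,
        ex (∑ j ∈ Icc 1 k, aj t ((n : ℝ) + θ) j * ((x : ℝ) ^ j * (y : ℝ) ^ j))‖ +
        (M : ℝ) ^ 2 * B := by
  set E := Complex.exp (((-(t * Real.log ((n : ℝ) + θ)) : ℝ) : ℂ) * Complex.I) with hE
  set g : ℕ → ℕ → ℂ := fun x y =>
    ex (∑ j ∈ Icc 1 k, aj t ((n : ℝ) + θ) j * ((x : ℝ) ^ j * (y : ℝ) ^ j)) with hg
  have h1 : ‖∑ x ∈ Icc 1 M, ∑ y ∈ Icc 1 M, cs t θ (n + x * y) -
      E * ∑ x ∈ Icc 1 M, ∑ y ∈ Icc 1 M, g x y‖ ≤ (M : ℝ) ^ 2 * B := by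
    rw [Finset.mul_sum, ← Finset.sum_sub_distrib]
    calc _ ≤ ∑ x ∈ Icc 1 M, ‖∑ y ∈ Icc 1 M, cs t θ (n + x * y) - E * ∑ y ∈ Icc 1 M, g x y‖ :=
          norm_sum_le _ _
      _ ≤ ∑ x ∈ Icc 1 M, ∑ y ∈ Icc 1 M, B := by
          refine Finset.sum_le_sum fun x hx => ?_
          rw [Finset.mul_sum, ← Finset.sum_sub_distrib]
          refine (norm_sum_le _ _).trans (Finset.sum_le_sum fun y hy => ?_)
          have hx2 : (x : ℝ) ≤ M := by exact_mod_cast (Finset.mem_Icc.mp hx).2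
          have hy2 : (y : ℝ) ≤ M := by exact_mod_cast (Finset.mem_Icc.mp hy).2
          have hx0 : (0 : ℝ) ≤ x := Nat.cast_nonneg _
          have hy0 : (0 : ℝ) ≤ y := Nat.cast_nonneg _
          have hM0 : (0 : ℝ) ≤ M := Nat.cast_nonneg _
          have hxy : (x : ℝ) * y ≤ (M : ℝ) ^ 2 := by
            nlinarith [mul_le_mul hx2 hy2 hy0 hM0]
          refine (vin_term hTay k t θ n x y hX (hxy.trans hz)).trans (le_trans ?_ hB)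
          gcongr
      _ = (M : ℝ) ^ 2 * B := by simp; ring
  have h2 : ‖E * ∑ x ∈ Icc 1 M, ∑ y ∈ Icc 1 M, g x y‖ =
      ‖∑ x ∈ Icc 1 M, ∑ y ∈ Icc 1 M, g x y‖ := by
    rw [norm_mul, hE, Complex.norm_exp_ofReal_mul_I, one_mul]
  have h3 := norm_le_norm_add_norm_sub' (∑ x ∈ Icc 1 M, ∑ y ∈ Icc 1 M, cs t θ (n + x * y))
    (E * ∑ x ∈ Icc 1 M, ∑ y ∈ Icc 1 M, g x y)
  rw [h2] at h3
  linarith

/-! ### numerics -/

lemma vin_num_bd (k : ℕ) (hk : 1 ≤ k) :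
    18 * (k : ℝ) ^ 2 * 2 ^ k + (1 + 6 * (k : ℝ) ^ 2 + k) * (7 * k * 12 ^ k) ≤
      Real.exp (10 * k) := by
  have hk1 : (1 : ℝ) ≤ k := by exact_mod_cast hk
  have hk2 : (k : ℝ) ≤ 2 ^ k := by exact_mod_cast (Nat.lt_two_pow_self (n := k)).le
  have h8 : (k : ℝ) ^ 3 ≤ 8 ^ k := by
    calc (k : ℝ) ^ 3 ≤ (2 ^ k) ^ 3 := by gcongr
      _ = 8 ^ k := by rw [← pow_mul, mul_comm k 3, pow_mul]; norm_num
  have h4 : (k : ℝ) ^ 2 * 2 ^ k ≤ 8 ^ k := by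
    calc (k : ℝ) ^ 2 * 2 ^ k ≤ (2 ^ k) ^ 2 * 2 ^ k := by gcongr
      _ = 8 ^ k := by rw [← pow_succ, ← pow_mul, mul_comm k 3, pow_mul]; norm_num
  have h96 : (8 : ℝ) ^ k ≤ 96 ^ k := by gcongr; norm_num
  have h1 : (1 + 6 * (k : ℝ) ^ 2 + k) * (7 * k * 12 ^ k) ≤ 56 * 96 ^ k := by
    have e1 : (1 + 6 * (k : ℝ) ^ 2 + k) ≤ 8 * (k : ℝ) ^ 2 := by nlinarith
    calc (1 + 6 * (k : ℝ) ^ 2 + k) * (7 * k * 12 ^ k) ≤ (8 * (k : ℝ) ^ 2) * (7 * k * 12 ^ k) := by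
          gcongr
      _ = 56 * ((k : ℝ) ^ 3 * 12 ^ k) := by ring
      _ ≤ 56 * ((8 : ℝ) ^ k * 12 ^ k) := by gcongr
      _ = 56 * 96 ^ k := by rw [← mul_pow]; norm_num
  have h2 : (74 : ℝ) * 96 ^ k ≤ (96 * 96) ^ k := by
    rw [mul_pow]
    gcongr
    calc (74 : ℝ) ≤ 96 ^ 1 := by norm_num
      _ ≤ 96 ^ k := by gcongr; norm_num
  have h3 : ((96 : ℝ) * 96) ^ k ≤ Real.exp (10 * k) := by
    rw [mul_comm (10 : ℝ) k, Real.exp_nat_mul]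
    gcongr
    have := Real.exp_one_gt_d9
    calc (96 : ℝ) * 96 ≤ 2.7 ^ 10 := by norm_num
      _ ≤ (Real.exp 1) ^ 10 := by gcongr; linarith
      _ = Real.exp 10 := by rw [← Real.exp_nat_mul]; norm_num
  nlinarith

lemma vin_num_bd2 (k : ℕ) (hk : 1 ≤ k) : 324 * (k : ℝ) ^ 4 ≤ Real.exp (10 * k) := by
  have hk1 : (1 : ℝ) ≤ k := by exact_mod_cast hk
  have h1 : (k : ℝ) ≤ Real.exp k := by linarith [Real.add_one_le_exp (k : ℝ)]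
  have h2 : (324 : ℝ) ≤ Real.exp 6 := by
    have := Real.exp_one_gt_d9
    calc (324 : ℝ) ≤ 2.7 ^ 6 := by norm_num
      _ ≤ (Real.exp 1) ^ 6 := by gcongr; linarith
      _ = Real.exp 6 := by rw [← Real.exp_nat_mul]; norm_num
  calc 324 * (k : ℝ) ^ 4 ≤ Real.exp 6 * (Real.exp k) ^ 4 := by gcongr
    _ = Real.exp (6 + 4 * k) := by rw [Real.exp_add, ← Real.exp_nat_mul]; norm_num
    _ ≤ Real.exp (10 * k) := by apply Real.exp_le_exp.mpr; linarith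

end Pool.Agent.Helper43.GK
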