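import Pool.Agent.Helper43.GK.VINc

set_option autoImplicit false

namespace Pool.Agent.Helper43.GK

open Finset
open Pool.Agent.Helper23.GK
open Pool.Agent.Helper48.BK (ex)

/-- product of the bounds for the factors `W` -/
private lemma prod_w (k M : ℕ) (L lam : ℝ) (w : ℕ → ℝ) (hM : 1 ≤ M) (hL : 0 ≤ L)
    (hlam : 1 / 2 ≤ lam) (hk : 4 * lam ≤ k) (hw0 : ∀ j, 0 ≤ w j)
    (hw : ∀ j ∈ Icc 1 k, w j ≤ (M : ℝ) ^ (2 * j) * (Real.exp (10 * k) * (1 + L) *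
      (if 2 * lam ≤ j ∧ (j : ℝ) ≤ 4 * lam then Real.exp (-(lam * L / 5)) else 1))) :
    ∏ j ∈ Icc 1 k, w j ≤ Real.exp (Real.log M * (k * (k + 1)) + 10 * (k : ℝ) ^ 2 +
      k * Real.log (1 + L) - lam ^ 2 * L / 5) := by
  have hMR : (1 : ℝ) ≤ M := by exact_mod_cast hM
  have hMp : (0 : ℝ) < M := by linarith
  have h1 : ∏ j ∈ Icc 1 k, w j ≤ ∏ j ∈ Icc 1 k, ((M : ℝ) ^ (2 * j) * (Real.exp (10 * k) * (1 + L) *
      (if 2 * lam ≤ j ∧ (j : ℝ) ≤ 4 * lam then Real.exp (-(lam * L / 5)) else 1))) :=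
    Finset.prod_le_prod (fun j _ => hw0 j) hw
  refine h1.trans ?_
  rw [Finset.prod_mul_distrib, Finset.prod_mul_distrib, Finset.prod_const, Finset.prod_ite,
    Finset.prod_const, Finset.prod_const_one, mul_one, Finset.prod_pow_eq_pow_sum, Nat.card_Icc,
    Nat.add_sub_cancel]
  have h2 : ((∑ j ∈ Icc 1 k, 2 * j : ℕ) : ℝ) = k * (k + 1) := by
    have : ∀ n : ℕ, ∑ j ∈ Icc 1 n, 2 * j = n * (n + 1) := by
      intro n
      induction n with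
      | zero => simp
      | succ n ih => rw [Finset.sum_Icc_succ_top (by omega), ih]; ring
    rw [this]; push_cast; ring
  set m := ((Icc 1 k).filter (fun j : ℕ => 2 * lam ≤ j ∧ (j : ℝ) ≤ 4 * lam)).card with hm
  have hmlam := good_count k lam hlam hk
  rw [← hm] at hmlam
  have h3 : (M : ℝ) ^ (∑ j ∈ Icc 1 k, 2 * j) = Real.exp (Real.log M * (k * (k + 1))) := by
    rw [← h2, ← Real.rpow_natCast, Real.rpow_def_of_pos hMp]
  have h4 : (Real.exp (10 * k) * (1 + L)) ^ k = Real.exp (10 * (k : ℝ) ^ 2 +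
      k * Real.log (1 + L)) := by
    have : Real.exp (10 * k) * (1 + L) = Real.exp (10 * k + Real.log (1 + L)) := by
      rw [Real.exp_add, Real.exp_log (by linarith)]
    rw [this, ← Real.exp_nat_mul]
    congr 1; ring
  have h5 : Real.exp (-(lam * L / 5)) ^ m ≤ Real.exp (-(lam ^ 2 * L / 5)) := by
    rw [← Real.exp_nat_mul]
    apply Real.exp_le_exp.mpr
    have : lam * (lam * L) ≤ m * (lam * L) := by
      apply mul_le_mul_of_nonneg_right hmlam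
      positivity
    nlinarith
  rw [h3, h4]
  calc _ ≤ Real.exp (Real.log M * (k * (k + 1))) * (Real.exp (10 * (k : ℝ) ^ 2 +
      k * Real.log (1 + L)) * Real.exp (-(lam ^ 2 * L / 5))) := by gcongr
    _ = _ := by rw [← Real.exp_add, ← Real.exp_add]; congr 1; ring

private lemma final_exp (C0 L lam l : ℝ) (k : ℕ) (hC0 : 0 < C0) (hL : 0 ≤ L) (hlam : 1 / 2 ≤ lam)
    (hk1 : 1 ≤ k) (hk9 : (k : ℝ) ≤ 9 * lam) (hk5 : (k : ℝ) ≤ 5 * (1 + lam))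
    (hl : l ≤ 2 / 5 * L) :
    l * (k : ℝ) ^ 2 / 250 + 2 * C0 * (k : ℝ) ^ 4 + 10 * (k : ℝ) ^ 2 + k * Real.log (1 + L) -
      lam ^ 2 * L / 5 ≤
    144 * (k : ℝ) ^ 4 * (C0 + 1 + Real.log (1 + L) - 1 / 5000000 / (1 + lam) ^ 2 * L) := by
  have hkR : (1 : ℝ) ≤ k := by exact_mod_cast hk1
  have hk2 : (k : ℝ) ^ 2 ≤ 81 * lam ^ 2 := by
    calc (k : ℝ) ^ 2 ≤ (9 * lam) ^ 2 := by gcongr
      _ = 81 * lam ^ 2 := by ring
  have hk25 : (k : ℝ) ^ 2 ≤ 25 * (1 + lam) ^ 2 := by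
    calc (k : ℝ) ^ 2 ≤ (5 * (1 + lam)) ^ 2 := by gcongr
      _ = 25 * (1 + lam) ^ 2 := by ring
  have hk4 : (k : ℝ) ^ 4 / (1 + lam) ^ 2 ≤ 2025 * lam ^ 2 := by
    rw [div_le_iff₀ (by positivity)]
    calc (k : ℝ) ^ 4 = (k : ℝ) ^ 2 * (k : ℝ) ^ 2 := by ring
      _ ≤ (81 * lam ^ 2) * (25 * (1 + lam) ^ 2) := by gcongr
      _ = 2025 * lam ^ 2 * (1 + lam) ^ 2 := by ring
  have h1 : (1 : ℝ) ≤ (k : ℝ) ^ 2 := one_le_pow₀ hkR
  have h2 : (k : ℝ) ^ 2 ≤ (k : ℝ) ^ 4 := pow_le_pow_right₀ hkR (by norm_num)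
  have h3 : (k : ℝ) ≤ (k : ℝ) ^ 4 := by
    calc (k : ℝ) = (k : ℝ) ^ 1 := by ring
      _ ≤ (k : ℝ) ^ 4 := pow_le_pow_right₀ hkR (by norm_num)
  have hlog : 0 ≤ Real.log (1 + L) := Real.log_nonneg (by linarith)
  have a1 : l * (k : ℝ) ^ 2 / 250 ≤ (81 / 625) * (lam ^ 2 * L) := by
    have : l * (k : ℝ) ^ 2 ≤ (2 / 5 * L) * (81 * lam ^ 2) := by
      calc l * (k : ℝ) ^ 2 ≤ (2 / 5 * L) * (k : ℝ) ^ 2 := by gcongr
        _ ≤ (2 / 5 * L) * (81 * lam ^ 2) := by gcongr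
    linarith
  have a2 : 2 * C0 * (k : ℝ) ^ 4 ≤ 144 * (k : ℝ) ^ 4 * C0 := by
    have : 0 ≤ (k : ℝ) ^ 4 * C0 := by positivity
    linarith
  have a3 : (k : ℝ) * Real.log (1 + L) ≤ 144 * (k : ℝ) ^ 4 * Real.log (1 + L) := by
    have : (k : ℝ) * Real.log (1 + L) ≤ (k : ℝ) ^ 4 * Real.log (1 + L) := by gcongr
    have h0 : 0 ≤ (k : ℝ) ^ 4 * Real.log (1 + L) := by positivity
    linarith
  have a4 : 144 * (k : ℝ) ^ 4 * (1 / 5000000 / (1 + lam) ^ 2 * L) ≤ (6 / 100) * (lam ^ 2 * L) := by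
    have : 144 * (k : ℝ) ^ 4 * (1 / 5000000 / (1 + lam) ^ 2 * L) =
        (144 / 5000000) * (((k : ℝ) ^ 4 / (1 + lam) ^ 2) * L) := by ring
    rw [this]
    have h' : ((k : ℝ) ^ 4 / (1 + lam) ^ 2) * L ≤ (2025 * lam ^ 2) * L := by gcongr
    have h0 : 0 ≤ lam ^ 2 * L := by positivity
    linarith
  have h0 : 0 ≤ lam ^ 2 * L := by positivity
  have e : 144 * (k : ℝ) ^ 4 * (C0 + 1 + Real.log (1 + L) - 1 / 5000000 / (1 + lam) ^ 2 * L) =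
      144 * (k : ℝ) ^ 4 * C0 + 144 * (k : ℝ) ^ 4 + 144 * (k : ℝ) ^ 4 * Real.log (1 + L) -
        144 * (k : ℝ) ^ 4 * (1 / 5000000 / (1 + lam) ^ 2 * L) := by ring
  rw [e]
  linarith

/-- the main bound for the double sum -/
lemma vin_core (hHol : StHol) (hWsu : StWsu) (C0 : ℝ) (hC0 : 0 < C0)
    (hV : ∀ k X : ℕ, 2 ≤ k → 1 ≤ X → (JJ k (6 * k ^ 2) X : ℝ) ≤ Real.exp (C0 * (k : ℝ) ^ 4) *
      (X : ℝ) ^ (12 * (k : ℝ) ^ 2 - (k : ℝ) * (k + 1) / 2 + (k : ℝ) ^ 2 / 500))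
    (k M : ℕ) (L lam X t : ℝ)
    (hk : 2 ≤ k) (hk4 : 4 * lam ≤ k) (hk9 : (k : ℝ) ≤ 9 * lam) (hk5 : (k : ℝ) ≤ 5 * (1 + lam))
    (hM : 1 ≤ M) (hL : 0 ≤ L) (hlam : 1 / 2 ≤ lam)
    (ht : |t| = Real.exp (lam * L)) (hs : 6 * (k : ℝ) ^ 2 ≤ Real.exp (lam * L / 5))
    (hM1 : (M : ℝ) ≤ Real.exp (2 / 5 * L)) (hM2 : Real.exp (2 / 5 * L) ≤ 2 * M)
    (hX1 : Real.exp L ≤ X) (hX2 : X ≤ 3 * Real.exp L) :
    ‖∑ x ∈ Icc 1 M, ∑ y ∈ Icc 1 M,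
        ex (∑ j ∈ Icc 1 k, aj t X j * ((x : ℝ) ^ j * (y : ℝ) ^ j))‖ ≤
      (M : ℝ) ^ 2 * (Real.exp (C0 + 1) * (1 + L) *
        Real.exp (-(1 / 5000000 / (1 + lam) ^ 2 * L))) := by
  set S := ‖∑ x ∈ Icc 1 M, ∑ y ∈ Icc 1 M,
        ex (∑ j ∈ Icc 1 k, aj t X j * ((x : ℝ) ^ j * (y : ℝ) ^ j))‖ with hS
  have hMR : (1 : ℝ) ≤ M := by exact_mod_cast hM
  have hMp : (0 : ℝ) < M := by linarith
  have hkR : (2 : ℝ) ≤ k := by exact_mod_cast hk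
  set l := Real.log M with hl
  have hl0 : 0 ≤ l := Real.log_nonneg hMR
  have hl1 : l ≤ 2 / 5 * L := by
    have : l ≤ Real.log (Real.exp (2 / 5 * L)) := Real.log_le_log hMp hM1
    rwa [Real.log_exp] at this
  have hs1 : 1 ≤ 6 * k ^ 2 := by nlinarith [Nat.one_le_two_pow (n := 0), hk]
  have h1 := hHol k (6 * k ^ 2) M (aj t X) hs1
  rw [← hS] at h1
  have hE1 : (M : ℝ) ^ (8 * (6 * k ^ 2) ^ 2 - 4 * (6 * k ^ 2)) =
      Real.exp (l * (288 * (k : ℝ) ^ 4 - 24 * (k : ℝ) ^ 2)) := by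
    rw [← Real.rpow_natCast, Real.rpow_def_of_pos hMp]
    congr 2
    have hle : 4 * (6 * k ^ 2) ≤ 8 * (6 * k ^ 2) ^ 2 := by nlinarith
    rw [Nat.cast_sub hle]
    push_cast
    ring
  have hE2 : (JJ k (6 * k ^ 2) M : ℝ) ^ 2 ≤ Real.exp (2 * C0 * (k : ℝ) ^ 4 +
      2 * (l * (12 * (k : ℝ) ^ 2 - (k : ℝ) * (k + 1) / 2 + (k : ℝ) ^ 2 / 500))) := by
    have hv := hV k M hk hM
    rw [Real.rpow_def_of_pos hMp, ← Real.exp_add] at hv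
    calc (JJ k (6 * k ^ 2) M : ℝ) ^ 2 ≤ (Real.exp (C0 * (k : ℝ) ^ 4 +
        Real.log M * (12 * (k : ℝ) ^ 2 - (k : ℝ) * (k + 1) / 2 + (k : ℝ) ^ 2 / 500))) ^ 2 := by
          gcongr
      _ = _ := by rw [← Real.exp_nat_mul]; congr 1; push_cast; ring
  have hE3 : ∏ j ∈ Icc 1 k, WU (aj t X j) (6 * k ^ 2 * M ^ j) ≤
      Real.exp (l * (k * (k + 1)) + 10 * (k : ℝ) ^ 2 +
      k * Real.log (1 + L) - lam ^ 2 * L / 5) := by
    apply prod_w k M L lam _ hM hL hlam hk4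
    · intro j
      unfold WU
      exact Finset.sum_nonneg fun _ _ => norm_nonneg _
    · intro j hj
      exact w_bound hWsu k M L lam X t j (by omega) hj hM hL hlam ht hs hM1 hM2 hX1 hX2
  have hW0 : 0 ≤ ∏ j ∈ Icc 1 k, WU (aj t X j) (6 * k ^ 2 * M ^ j) := by
    apply Finset.prod_nonneg
    intro j _
    unfold WU
    exact Finset.sum_nonneg fun _ _ => norm_nonneg _
  have h2 : S ^ (4 * (6 * k ^ 2) ^ 2) ≤ Real.exp (288 * (k : ℝ) ^ 4 * l +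
      (l * (k : ℝ) ^ 2 / 250 + 2 * C0 * (k : ℝ) ^ 4 + 10 * (k : ℝ) ^ 2 + k * Real.log (1 + L) -
      lam ^ 2 * L / 5)) := by
    refine h1.trans ?_
    rw [hE1]
    calc _ ≤ Real.exp (l * (288 * (k : ℝ) ^ 4 - 24 * (k : ℝ) ^ 2)) *
        Real.exp (2 * C0 * (k : ℝ) ^ 4 +
          2 * (l * (12 * (k : ℝ) ^ 2 - (k : ℝ) * (k + 1) / 2 + (k : ℝ) ^ 2 / 500))) *
        Real.exp (l * (k * (k + 1)) + 10 * (k : ℝ) ^ 2 +
          k * Real.log (1 + L) - lam ^ 2 * L / 5) := by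
          apply mul_le_mul _ hE3 hW0 (by positivity)
          exact mul_le_mul_of_nonneg_left hE2 (by positivity)
      _ = _ := by rw [← Real.exp_add, ← Real.exp_add]; congr 1; ring
  have h3 : ((M : ℝ) ^ 2 * (Real.exp (C0 + 1) * (1 + L) *
        Real.exp (-(1 / 5000000 / (1 + lam) ^ 2 * L)))) ^ (4 * (6 * k ^ 2) ^ 2) =
      Real.exp (288 * (k : ℝ) ^ 4 * l +
        144 * (k : ℝ) ^ 4 * (C0 + 1 + Real.log (1 + L) - 1 / 5000000 / (1 + lam) ^ 2 * L)) := by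
    have e1 : (M : ℝ) ^ 2 * (Real.exp (C0 + 1) * (1 + L) *
        Real.exp (-(1 / 5000000 / (1 + lam) ^ 2 * L))) =
        Real.exp (2 * l + (C0 + 1 + Real.log (1 + L) - 1 / 5000000 / (1 + lam) ^ 2 * L)) := by
      have e2 : (M : ℝ) ^ 2 = Real.exp (2 * l) := by
        rw [two_mul, Real.exp_add, hl, Real.exp_log hMp]; ring
      rw [e2, show C0 + 1 + Real.log (1 + L) - 1 / 5000000 / (1 + lam) ^ 2 * L =
        (C0 + 1) + Real.log (1 + L) + (-(1 / 5000000 / (1 + lam) ^ 2 * L)) by ring]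
      rw [Real.exp_add (2 * l), Real.exp_add (C0 + 1 + _), Real.exp_add (C0 + 1),
        Real.exp_log (by linarith)]
    rw [e1, ← Real.exp_nat_mul]
    congr 1
    push_cast
    ring
  have h4 := final_exp C0 L lam l k hC0 hL hlam (by omega) hk9 hk5 hl1
  have h5 : S ^ (4 * (6 * k ^ 2) ^ 2) ≤ ((M : ℝ) ^ 2 * (Real.exp (C0 + 1) * (1 + L) *
        Real.exp (-(1 / 5000000 / (1 + lam) ^ 2 * L)))) ^ (4 * (6 * k ^ 2) ^ 2) := by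
    rw [h3]
    refine h2.trans ?_
    apply Real.exp_le_exp.mpr
    linarith
  have hne : 4 * (6 * k ^ 2) ^ 2 ≠ 0 := by positivity
  exact (pow_le_pow_iff_left₀ (norm_nonneg _) (by positivity) hne).mp h5

end Pool.Agent.Helper43.GK
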