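import Pool.Agent.Helper43.GK.VINa

set_option autoImplicit false

namespace Pool.Agent.Helper43.GK

open Finset
open Pool.Agent.Helper23.GK
open Pool.Agent.Helper48.BK (ex)

/-! ### the factors `W` -/

private lemma aj_abs (t X : ℝ) (hX : 0 < X) (j : ℕ) (hj : 1 ≤ j) :
    |aj t X j| = |t| / (2 * Real.pi * j * X ^ j) := by
  have hj0 : (0 : ℝ) < j := by exact_mod_cast hj
  rw [aj, abs_div, abs_mul, abs_pow, abs_neg, abs_one, one_pow, one_mul]
  congr 1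
  apply abs_of_pos
  have := Real.pi_pos
  positivity

lemma w_bound (hWsu : StWsu) (k M : ℕ) (L lam X t : ℝ) (j : ℕ)
    (hk : 1 ≤ k) (hj : j ∈ Icc 1 k) (hM : 1 ≤ M) (hL : 0 ≤ L) (hlam : 1 / 2 ≤ lam)
    (ht : |t| = Real.exp (lam * L)) (hs : 6 * (k : ℝ) ^ 2 ≤ Real.exp (lam * L / 5))
    (hM1 : (M : ℝ) ≤ Real.exp (2 / 5 * L)) (hM2 : Real.exp (2 / 5 * L) ≤ 2 * M)
    (hX1 : Real.exp L ≤ X) (hX2 : X ≤ 3 * Real.exp L) :
    WU (aj t X j) (6 * k ^ 2 * M ^ j) ≤ (M : ℝ) ^ (2 * j) * (Real.exp (10 * k) * (1 + L) *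
      (if 2 * lam ≤ j ∧ (j : ℝ) ≤ 4 * lam then Real.exp (-(lam * L / 5)) else 1)) := by
  have hj1 := (Finset.mem_Icc.mp hj).1
  have hj2 := (Finset.mem_Icc.mp hj).2
  have hjR : (1 : ℝ) ≤ j := by exact_mod_cast hj1
  have hjk : (j : ℝ) ≤ k := by exact_mod_cast hj2
  have hkR : (1 : ℝ) ≤ k := by exact_mod_cast hk
  have hMR : (1 : ℝ) ≤ M := by exact_mod_cast hM
  have hMp : (0 : ℝ) < M := by linarith
  have hMj1 : (1 : ℝ) ≤ (M : ℝ) ^ j := one_le_pow₀ hMR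
  have hXp : 0 < X := lt_of_lt_of_le (Real.exp_pos _) hX1
  have hU : (((6 * k ^ 2 * M ^ j : ℕ)) : ℝ) = 6 * (k : ℝ) ^ 2 * (M : ℝ) ^ j := by push_cast; ring
  have hU1 : (1 : ℝ) ≤ 6 * (k : ℝ) ^ 2 * (M : ℝ) ^ j := by
    have h1k : (1 : ℝ) ≤ (k : ℝ) ^ 2 := one_le_pow₀ hkR
    have h6 : (1 : ℝ) ≤ 6 * (k : ℝ) ^ 2 := by linarith
    calc (1 : ℝ) = 1 * 1 := by ring
      _ ≤ 6 * (k : ℝ) ^ 2 * (M : ℝ) ^ j := mul_le_mul h6 hMj1 (by norm_num) (by linarith)
  have hpi := Real.pi_pos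
  have hpi3 := Real.pi_gt_three
  have hpi4 := Real.pi_lt_d2
  split_ifs with hg
  · obtain ⟨hg1, hg2⟩ := hg
    set a := aj t X j with ha
    have haabs : |a| = |t| / (2 * Real.pi * j * X ^ j) := aj_abs t X hXp j hj1
    have hDpos : 0 < 2 * Real.pi * j * X ^ j := by positivity
    have htpos : 0 < |t| := by rw [ht]; exact Real.exp_pos _
    have hapos : 0 < |a| := by rw [haabs]; positivity
    have hMj : (M : ℝ) ^ j ≤ Real.exp (j * (2 / 5 * L)) := by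
      rw [Real.exp_nat_mul]; gcongr
    have hXj1 : Real.exp (j * L) ≤ X ^ j := by rw [Real.exp_nat_mul]; gcongr
    have hXj2 : X ^ j ≤ 3 ^ j * Real.exp (j * L) := by
      rw [Real.exp_nat_mul, ← mul_pow]; gcongr
    have hhalf : |a| * ((6 * k ^ 2 * M ^ j : ℕ) : ℝ) ≤ 1 / 2 := by
      rw [hU, haabs, div_mul_eq_mul_div, div_le_iff₀ hDpos]
      have e1 : |t| * (6 * (k : ℝ) ^ 2 * (M : ℝ) ^ j) ≤ Real.exp (j * L) := by
        calc |t| * (6 * (k : ℝ) ^ 2 * (M : ℝ) ^ j) ≤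
            Real.exp (lam * L) * (Real.exp (lam * L / 5) * Real.exp (j * (2 / 5 * L))) := by
              rw [ht]; gcongr
          _ = Real.exp (lam * L + (lam * L / 5 + j * (2 / 5 * L))) := by
              rw [Real.exp_add, Real.exp_add]
          _ ≤ Real.exp (j * L) := by
              apply Real.exp_le_exp.mpr
              have := mul_nonneg (sub_nonneg.mpr hg1) hL
              linarith
      have e2 : Real.exp (j * L) ≤ Real.pi * j * X ^ j := by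
        have hpj : (1 : ℝ) ≤ Real.pi * j := by
          have h' := mul_le_mul (by linarith : (1 : ℝ) ≤ Real.pi) hjR (by norm_num) hpi.le
          linarith
        calc Real.exp (j * L) ≤ X ^ j := hXj1
          _ = 1 * X ^ j := by ring
          _ ≤ Real.pi * j * X ^ j := mul_le_mul_of_nonneg_right hpj (by positivity)
      linarith
    have hW := hWsu.2 a (6 * k ^ 2 * M ^ j)
      (by
        have : (1 : ℝ) ≤ ((6 * k ^ 2 * M ^ j : ℕ) : ℝ) := by rw [hU]; exact hU1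
        exact_mod_cast this) hapos hhalf
    refine hW.trans ?_
    rw [hU]
    set eps := Real.exp (-(lam * L / 5)) with heps
    have hepos : 0 < eps := Real.exp_pos _
    -- `(2M)^j` is large
    have h2M : Real.exp (j * (2 / 5 * L)) ≤ 2 ^ j * (M : ℝ) ^ j := by
      rw [Real.exp_nat_mul, ← mul_pow]; gcongr
    have p1 : 3 * (6 * (k : ℝ) ^ 2 * (M : ℝ) ^ j) ≤
        (M : ℝ) ^ (2 * j) * (18 * (k : ℝ) ^ 2 * 2 ^ k) * eps := by
      have e1 : 1 ≤ (2 ^ k * (M : ℝ) ^ j) * eps := by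
        calc (1 : ℝ) = Real.exp (lam * L / 5) * eps := by
              rw [heps, ← Real.exp_add]; simp
          _ ≤ Real.exp (j * (2 / 5 * L)) * eps := by
              gcongr
              have := mul_nonneg (sub_nonneg.mpr hg1) hL
              have := mul_nonneg (by linarith : 0 ≤ lam) hL
              linarith
          _ ≤ (2 ^ j * (M : ℝ) ^ j) * eps := by gcongr
          _ ≤ (2 ^ k * (M : ℝ) ^ j) * eps := by
              gcongr
              norm_num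
      calc 3 * (6 * (k : ℝ) ^ 2 * (M : ℝ) ^ j) = (18 * (k : ℝ) ^ 2 * (M : ℝ) ^ j) * 1 := by ring
        _ ≤ (18 * (k : ℝ) ^ 2 * (M : ℝ) ^ j) * ((2 ^ k * (M : ℝ) ^ j) * eps) := by gcongr
        _ = (M : ℝ) ^ (2 * j) * (18 * (k : ℝ) ^ 2 * 2 ^ k) * eps := by
            rw [mul_comm 2 j, pow_mul]; ring
    have p2 : 1 + Real.log (6 * (k : ℝ) ^ 2 * (M : ℝ) ^ j) ≤
        (1 + 6 * (k : ℝ) ^ 2 + k) * (1 + L) := by
      have hk2 : 0 < 6 * (k : ℝ) ^ 2 := by positivity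
      rw [Real.log_mul hk2.ne' (by positivity), Real.log_pow]
      have l1 : Real.log (6 * (k : ℝ) ^ 2) ≤ 6 * (k : ℝ) ^ 2 := by
        have := Real.log_le_sub_one_of_pos hk2
        linarith
      have l2 : Real.log (M : ℝ) ≤ L := by
        have : Real.log (M : ℝ) ≤ Real.log (Real.exp (2 / 5 * L)) :=
          Real.log_le_log hMp hM1
        rw [Real.log_exp] at this
        linarith
      have l0 : 0 ≤ Real.log (M : ℝ) := Real.log_nonneg hMR
      have l3 : (j : ℝ) * Real.log (M : ℝ) ≤ k * L := by gcongr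
      have l4 : 0 ≤ (1 + 6 * (k : ℝ) ^ 2) * L := by positivity
      linarith
    have p3 : 1 / |a| ≤ (M : ℝ) ^ (2 * j) * (7 * k * 12 ^ k) * eps := by
      rw [haabs, one_div_div, div_le_iff₀ htpos]
      have h4 : Real.exp (j * (4 / 5 * L)) ≤ 4 ^ j * (M : ℝ) ^ (2 * j) := by
        calc Real.exp (j * (4 / 5 * L)) = (Real.exp (j * (2 / 5 * L))) ^ 2 := by
              rw [← Real.exp_nat_mul]; congr 1; push_cast; ring
          _ ≤ (2 ^ j * (M : ℝ) ^ j) ^ 2 := by gcongr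
          _ = 4 ^ j * (M : ℝ) ^ (2 * j) := by
              rw [mul_pow, ← pow_mul, ← pow_mul, mul_comm j 2, pow_mul 2 2 j]; norm_num
      have e2 : Real.exp (j * L) ≤ Real.exp (j * (4 / 5 * L)) * eps * |t| := by
        rw [heps, ht, ← Real.exp_add, ← Real.exp_add]
        apply Real.exp_le_exp.mpr
        have := mul_nonneg (sub_nonneg.mpr hg2) hL
        linarith
      have e3 : (3 : ℝ) ^ j * 4 ^ j ≤ 12 ^ k := by
        rw [← mul_pow]
        calc ((3 : ℝ) * 4) ^ j = 12 ^ j := by norm_num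
          _ ≤ 12 ^ k := by gcongr; norm_num
      calc 2 * Real.pi * j * X ^ j ≤ (7 * k) * (3 ^ j * Real.exp (j * L)) := by
            have : 2 * Real.pi * j ≤ 7 * k := by
              have h7 : 2 * Real.pi ≤ 7 := by linarith
              exact mul_le_mul h7 hjk (by linarith) (by norm_num)
            gcongr
        _ ≤ (7 * k) * (3 ^ j * (Real.exp (j * (4 / 5 * L)) * eps * |t|)) := by gcongr
        _ ≤ (7 * k) * (3 ^ j * ((4 ^ j * (M : ℝ) ^ (2 * j)) * eps * |t|)) := by gcongr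
        _ = (M : ℝ) ^ (2 * j) * (7 * k * (3 ^ j * 4 ^ j)) * eps * |t| := by ring
        _ ≤ (M : ℝ) ^ (2 * j) * (7 * k * 12 ^ k) * eps * |t| := by gcongr
    have hl0 : 0 ≤ 1 + Real.log (6 * (k : ℝ) ^ 2 * (M : ℝ) ^ j) := by
      have := Real.log_nonneg hU1
      linarith
    have hnum := vin_num_bd k hk
    calc 3 * (6 * (k : ℝ) ^ 2 * (M : ℝ) ^ j) +
          (1 + Real.log (6 * (k : ℝ) ^ 2 * (M : ℝ) ^ j)) / |a|
        = 3 * (6 * (k : ℝ) ^ 2 * (M : ℝ) ^ j) +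
          (1 + Real.log (6 * (k : ℝ) ^ 2 * (M : ℝ) ^ j)) * (1 / |a|) := by ring
      _ ≤ (M : ℝ) ^ (2 * j) * (18 * (k : ℝ) ^ 2 * 2 ^ k) * eps +
          ((1 + 6 * (k : ℝ) ^ 2 + k) * (1 + L)) *
            ((M : ℝ) ^ (2 * j) * (7 * k * 12 ^ k) * eps) := by gcongr
      _ ≤ (M : ℝ) ^ (2 * j) * (18 * (k : ℝ) ^ 2 * 2 ^ k) * eps * (1 + L) +
          ((1 + 6 * (k : ℝ) ^ 2 + k) * (1 + L)) *
            ((M : ℝ) ^ (2 * j) * (7 * k * 12 ^ k) * eps) := by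
          have hA : 0 ≤ (M : ℝ) ^ (2 * j) * (18 * (k : ℝ) ^ 2 * 2 ^ k) * eps := by positivity
          have hB := mul_nonneg hA hL
          linarith
      _ = (M : ℝ) ^ (2 * j) * ((18 * (k : ℝ) ^ 2 * 2 ^ k +
            (1 + 6 * (k : ℝ) ^ 2 + k) * (7 * k * 12 ^ k)) * (1 + L) * eps) := by ring
      _ ≤ (M : ℝ) ^ (2 * j) * (Real.exp (10 * k) * (1 + L) * eps) := by gcongr
  · refine (hWsu.1 _ _).trans ?_
    rw [hU, mul_one]
    have hnum := vin_num_bd2 k hk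
    have e1 : (2 * (6 * (k : ℝ) ^ 2 * (M : ℝ) ^ j) + 1) ^ 2 ≤
        (3 * (6 * (k : ℝ) ^ 2 * (M : ℝ) ^ j)) ^ 2 := by
      have : 2 * (6 * (k : ℝ) ^ 2 * (M : ℝ) ^ j) + 1 ≤ 3 * (6 * (k : ℝ) ^ 2 * (M : ℝ) ^ j) := by
        linarith
      gcongr
    calc _ ≤ (3 * (6 * (k : ℝ) ^ 2 * (M : ℝ) ^ j)) ^ 2 := e1
      _ = (M : ℝ) ^ (2 * j) * (324 * (k : ℝ) ^ 4) := by
          rw [mul_comm 2 j, pow_mul]; ring
      _ ≤ (M : ℝ) ^ (2 * j) * (Real.exp (10 * k) * (1 + L)) := by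
          have : Real.exp (10 * (k : ℝ)) ≤ Real.exp (10 * k) * (1 + L) := by
            have := mul_nonneg (Real.exp_pos (10 * (k : ℝ))).le hL
            linarith
          exact mul_le_mul_of_nonneg_left (hnum.trans this) (by positivity)

/-! ### counting the good indices -/

lemma good_count (k : ℕ) (lam : ℝ) (hlam : 1 / 2 ≤ lam) (hk : 4 * lam ≤ k) :
    lam ≤ (((Icc 1 k).filter (fun j : ℕ => 2 * lam ≤ j ∧ (j : ℝ) ≤ 4 * lam)).card : ℝ) := by
  set m := ((Icc 1 k).filter (fun j : ℕ => 2 * lam ≤ j ∧ (j : ℝ) ≤ 4 * lam)).card with hm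
  have hsub : Icc ⌈2 * lam⌉₊ ⌊4 * lam⌋₊ ⊆
      (Icc 1 k).filter (fun j : ℕ => 2 * lam ≤ j ∧ (j : ℝ) ≤ 4 * lam) := by
    intro j hj
    rw [Finset.mem_Icc] at hj
    have h1 : 2 * lam ≤ j := Nat.ceil_le.mp hj.1
    have h2 : (j : ℝ) ≤ 4 * lam := (Nat.le_floor_iff (by linarith)).mp hj.2
    rw [Finset.mem_filter, Finset.mem_Icc]
    refine ⟨⟨?_, ?_⟩, h1, h2⟩
    · have : (0 : ℝ) < j := by linarith
      exact_mod_cast this
    · have : (j : ℝ) ≤ k := by linarith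
      exact_mod_cast this
  have hcard := Finset.card_le_card hsub
  rw [Nat.card_Icc] at hcard
  have hf : 4 * lam < (⌊4 * lam⌋₊ : ℝ) + 1 := Nat.lt_floor_add_one _
  have hc : (⌈2 * lam⌉₊ : ℝ) < 2 * lam + 1 := Nat.ceil_lt_add_one (by linarith)
  have h3 : ((⌊4 * lam⌋₊ : ℝ) + 1) - ⌈2 * lam⌉₊ ≤ m := by
    have : ⌊4 * lam⌋₊ + 1 ≤ m + ⌈2 * lam⌉₊ := by omega
    have h' : ((⌊4 * lam⌋₊ + 1 : ℕ) : ℝ) ≤ ((m + ⌈2 * lam⌉₊ : ℕ) : ℝ) := by exact_mod_cast this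
    push_cast at h'
    linarith
  have h4 : 2 * lam - 1 < (m : ℝ) := by linarith
  rcases le_or_gt 1 lam with h | h
  · linarith
  · have h5 : (0 : ℝ) < m := by linarith
    have h6 : 1 ≤ m := by exact_mod_cast h5
    have h7 : (1 : ℝ) ≤ m := by exact_mod_cast h6
    linarith

end Pool.Agent.Helper43.GK
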